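import Pool.Agent.MP_670f9a_nt.H13.Spec2

/-! Additivity and lower bounds for the Mahler measure in two variables. -/

namespace Pool.Agent.MP_670f9a_nt.H90

open Polynomial Real MeasureTheory
open Pool.Agent.MP_670f9a_nt.NP

theorem ae_ne (f : ℂ[X]) (hf : f ≠ 0) : ∀ᵐ θ : ℝ, f.eval (circleMap 0 1 θ) ≠ 0 := by
  have h1 : (circleMap 0 1 ⁻¹' {z | f.IsRoot z}).Countable :=
    (f.finite_setOfPred_isRoot hf).countable.preimage_circleMap 0 one_ne_zero
  have h2 := h1.measure_zero (volume : Measure ℝ)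
  rw [ae_iff]
  refine measure_mono_null (fun θ hθ => ?_) h2
  simpa using hθ

theorem mono_ae {f g : ℂ → ℝ} (hf : CircleIntegrable f 0 1) (hg : CircleIntegrable g 0 1)
    (h : ∀ᵐ θ : ℝ, f (circleMap 0 1 θ) ≤ g (circleMap 0 1 θ)) :
    circleAverage f 0 1 ≤ circleAverage g 0 1 := by
  rw [circleAverage_def, circleAverage_def, smul_eq_mul, smul_eq_mul]
  refine mul_le_mul_of_nonneg_left ?_ (inv_nonneg.2 two_pi_pos.le)
  exact intervalIntegral.integral_mono_ae_restrict two_pi_pos.le hf hg (ae_restrict_of_ae h)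

theorem congr_ae {f g : ℂ → ℝ} (h : ∀ᵐ θ : ℝ, f (circleMap 0 1 θ) = g (circleMap 0 1 θ)) :
    circleAverage f 0 1 = circleAverage g 0 1 := by
  rw [circleAverage_def, circleAverage_def]
  congr 1
  exact intervalIntegral.integral_congr_ae (h.mono fun θ hθ _ => hθ)

theorem phi_eq (H : ℂ[X][X]) (u : ℂ) : Phi H u = (H.map (evalRingHom u)).logMahlerMeasure := by
  rw [logMahlerMeasure_def, Phi]
  simp only [map_evalRingHom_eval]

theorem lc_map (H : ℂ[X][X]) (u : ℂ) (h : H.leadingCoeff.eval u ≠ 0) :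
    (H.map (evalRingHom u)).leadingCoeff = H.leadingCoeff.eval u :=
  leadingCoeff_map_of_leadingCoeff_ne_zero (evalRingHom u) h

theorem log_lc_le (p : ℂ[X]) (hp : p.leadingCoeff ≠ 0) :
    log ‖p.leadingCoeff‖ ≤ p.logMahlerMeasure := by
  rw [logMahlerMeasure_eq_log_MahlerMeasure]
  exact log_le_log (norm_pos_iff.2 hp) (leadingCoeff_le_mahlerMeasure p)

theorem two (H : ℂ[X][X]) (u : ℂ) (h : H.leadingCoeff.eval u ≠ 0) :
    log ‖H.leadingCoeff.eval u‖ ≤ Phi H u := by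
  rw [phi_eq, ← lc_map H u h]
  exact log_lc_le _ (by rw [lc_map H u h]; exact h)

theorem one (h : SFub) (H G : ℂ[X][X]) (hH : H ≠ 0) (hG : G ≠ 0) :
    m2 (H * G) = m2 H + m2 G := by
  rw [m2, m2, m2, ← circleAverage_fun_add (h H hH).1 (h G hG).1]
  refine congr_ae ?_
  filter_upwards [ae_ne _ (leadingCoeff_ne_zero.2 hH), ae_ne _ (leadingCoeff_ne_zero.2 hG)]
    with θ h1 h2
  rw [phi_eq, phi_eq, phi_eq, Polynomial.map_mul]
  refine logMahlerMeasure_mul_eq_add_logMahlerMeasure (mul_ne_zero ?_ ?_)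
  · exact leadingCoeff_ne_zero.1 (by rw [lc_map _ _ h1]; exact h1)
  · exact leadingCoeff_ne_zero.1 (by rw [lc_map _ _ h2]; exact h2)

theorem three (h : SFub) (H : ℂ[X][X]) (hH : H ≠ 0) :
    H.leadingCoeff.logMahlerMeasure ≤ m2 H := by
  rw [logMahlerMeasure_def, m2]
  refine mono_ae (intervalIntegrable_mahlerMeasure _) (h H hH).1 ?_
  filter_upwards [ae_ne _ (leadingCoeff_ne_zero.2 hH)] with θ h1
  exact two H _ h1

theorem four (h : SFub) (H : ℂ[X][X]) (h1 : 1 ≤ ‖H.leadingCoeff.leadingCoeff‖) : 0 ≤ m2 H := by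
  have h2 : H.leadingCoeff.leadingCoeff ≠ 0 := norm_pos_iff.1 (one_pos.trans_le h1)
  have h3 : H ≠ 0 := leadingCoeff_ne_zero.1 (leadingCoeff_ne_zero.1 h2)
  exact (log_nonneg h1).trans ((log_lc_le _ h2).trans (three h H h3))

theorem five (h : SFub) (F : ℤ[X][X]) (hF : F ≠ 0) : toC F ≠ 0 ∧ 0 ≤ m2 (toC F) := by
  have i1 : Function.Injective (Int.castRingHom ℂ) := (Int.castRingHom ℂ).injective_int
  have i2 : Function.Injective (mapRingHom (Int.castRingHom ℂ)) := map_injective _ i1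
  refine ⟨(Polynomial.map_ne_zero_iff i2).2 hF, four h _ ?_⟩
  rw [toC, leadingCoeff_map_of_injective i2, coe_mapRingHom, leadingCoeff_map_of_injective i1,
    eq_intCast, Complex.norm_intCast]
  exact_mod_cast Int.one_le_abs (leadingCoeff_ne_zero.2 (leadingCoeff_ne_zero.2 hF))

theorem sAdd (h : SFub) : SAdd :=
  ⟨one h, two, three h, four h, five h⟩

end Pool.Agent.MP_670f9a_nt.H90
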