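import Pool.Agent.MP_670f9a_nt.H13.Spec

/-!
Transfer of a bound from the roots of an irreducible integer polynomial to the unit circle,
by Lagrange interpolation at a Fekete subset of the roots.
-/

namespace Pool.Agent.MP_670f9a_nt.H90

open Polynomial Pool.Agent.MP_670f9a_nt.H13

theorem near_le (x v : ℂ) (r R : ℝ) (hx : ‖x‖ = 1) (hr : 1 ≤ r) (hv : ‖v‖ ≤ r)
    (hR : r ^ 2 ≤ R) : ‖x - v‖ ≤ ‖(R : ℂ) * x - v‖ := by
  have ht : x.re * v.re + x.im * v.im ≤ r := by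
    have h1 : (x * (starRingEnd ℂ) v).re ≤ ‖x * (starRingEnd ℂ) v‖ := Complex.re_le_norm _
    rw [norm_mul, hx, one_mul, Complex.norm_conj] at h1
    simp only [Complex.mul_re, Complex.conj_re, Complex.conj_im] at h1
    linarith
  have hx2 : x.re * x.re + x.im * x.im = 1 := by
    have h2 := Complex.sq_norm x
    rw [hx, Complex.normSq_apply] at h2
    linarith
  have hR1 : 1 ≤ R := by nlinarith
  refine (sq_le_sq₀ (norm_nonneg _) (norm_nonneg _)).mp ?_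
  rw [Complex.sq_norm, Complex.sq_norm, Complex.normSq_apply, Complex.normSq_apply]
  simp only [Complex.sub_re, Complex.sub_im, Complex.mul_re, Complex.mul_im, Complex.ofReal_re,
    Complex.ofReal_im, zero_mul, sub_zero, add_zero]
  have h3 : 0 ≤ (R - 1) * (R + 1 - 2 * (x.re * v.re + x.im * v.im)) := by
    apply mul_nonneg (by linarith)
    nlinarith [sq_nonneg (r - 1)]
  have h4 : (R * x.re - v.re) * (R * x.re - v.re) + (R * x.im - v.im) * (R * x.im - v.im) -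
      ((x.re - v.re) * (x.re - v.re) + (x.im - v.im) * (x.im - v.im)) =
      (R - 1) * (R + 1 - 2 * (x.re * v.re + x.im * v.im)) := by
    linear_combination (R ^ 2 - 1) * hx2
  linarith

theorem far_le (x a : ℂ) (r d : ℝ) (hx : ‖x‖ = 1) (hr : 1 ≤ r) (ha : ‖a‖ ≤ r) (hd : 0 ≤ d) :
    d ≤ ‖((r ^ 2 + d : ℝ) : ℂ) * x - a‖ := by
  have h1 : ‖((r ^ 2 + d : ℝ) : ℂ) * x‖ - ‖a‖ ≤ ‖((r ^ 2 + d : ℝ) : ℂ) * x - a‖ :=
    norm_sub_norm_le _ _
  rw [norm_mul, hx, mul_one, Complex.norm_real, Real.norm_of_nonneg (by positivity)] at h1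
  nlinarith

theorem mu_lower (m q : ℕ) (r μ : ℝ) (hm : 6 ≤ m) (hq : m ≤ 3 * q) (hr : 1 ≤ r) (hμ : 0 ≤ μ)
    (h : 1 ≤ (m : ℝ) ^ (2 * m) * r ^ (m ^ 2) * (2 * r * μ) ^ (2 * q)) :
    1 ≤ 2 * (m : ℝ) ^ 3 * r ^ (2 * m) * μ := by
  by_contra hc
  push Not at hc
  have hm1 : (1 : ℝ) ≤ m := by exact_mod_cast (by omega : 1 ≤ m)
  obtain ⟨k, hk⟩ : ∃ k, 2 * m = k + 1 := ⟨2 * m - 1, by omega⟩
  have h1 : (m : ℝ) ^ (2 * m) ≤ (m : ℝ) ^ (3 * (2 * q)) := pow_le_pow_right₀ hm1 (by omega)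
  have h2 : r ^ (m ^ 2) ≤ r ^ (k * (2 * q)) := by
    apply pow_le_pow_right₀ hr
    have h3 : 3 * m ≤ 2 * k := by omega
    nlinarith [Nat.mul_le_mul h3 hq]
  have h4 : (m : ℝ) ^ (2 * m) * r ^ (m ^ 2) * (2 * r * μ) ^ (2 * q) ≤
      (2 * (m : ℝ) ^ 3 * r ^ (2 * m) * μ) ^ (2 * q) := by
    have h5 : (2 * (m : ℝ) ^ 3 * r ^ (2 * m) * μ) ^ (2 * q) =
        (m : ℝ) ^ (3 * (2 * q)) * r ^ (k * (2 * q)) * (2 * r * μ) ^ (2 * q) := by
      rw [pow_mul (m : ℝ) 3, pow_mul r k, ← mul_pow, ← mul_pow, hk]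
      congr 1
      ring
    rw [h5]
    have hr0 : 0 ≤ r := by linarith
    gcongr
  have h6 : (2 * (m : ℝ) ^ 3 * r ^ (2 * m) * μ) ^ (2 * q) < 1 := by
    have hr0 : 0 ≤ r := by linarith
    exact pow_lt_one₀ (by positivity) hc (by omega)
  linarith

theorem interp [DecidableEq ℂ] (I : Finset ℂ) (f : ℂ[X]) (hf : f.natDegree < I.card) (x : ℂ) :
    f.eval x = ∑ a ∈ I, f.eval a * ∏ v ∈ I.erase a, ((a - v)⁻¹ * (x - v)) := by
  have hdeg : f.degree < I.card := lt_of_le_of_lt degree_le_natDegree (by exact_mod_cast hf)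
  have h := Lagrange.eq_interpolate (s := I) (v := id) (f := f) (Set.injOn_id _) hdeg
  conv_lhs => rw [h]
  rw [Lagrange.interpolate_apply, eval_finsetSum]
  refine Finset.sum_congr rfl fun a _ => ?_
  rw [eval_mul, eval_C, Lagrange.basis, eval_prod]
  simp [Lagrange.basisDivisor]

theorem transfer [DecidableEq ℂ] (I : Finset ℂ) (m : ℕ) (r K W : ℝ) (f : ℂ[X]) (x : ℂ)
    (hm : 1 ≤ m) (hI : I.card ≤ m) (hr : 1 ≤ r) (hK : 0 ≤ K) (hW : 0 ≤ W)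
    (hIr : ∀ a ∈ I, ‖a‖ ≤ r) (hμ : ∀ a ∈ I, 1 ≤ K * ∏ v ∈ I.erase a, ‖a - v‖)
    (hf : f.natDegree < I.card) (hfW : ∀ a ∈ I, ‖f.eval a‖ ≤ W) (hx : ‖x‖ = 1) :
    ‖f.eval x‖ ≤ W * (K * (m : ℝ) ^ 2 * ∏ a ∈ I, ‖((r ^ 2 + 1 / m : ℝ) : ℂ) * x - a‖) := by
  have hm0 : (0 : ℝ) < m := by exact_mod_cast hm
  set P : ℝ := ∏ a ∈ I, ‖((r ^ 2 + 1 / m : ℝ) : ℂ) * x - a‖ with hP
  have hP0 : 0 ≤ P := Finset.prod_nonneg fun _ _ => norm_nonneg _
  have hterm : ∀ a ∈ I, ‖f.eval a * ∏ v ∈ I.erase a, ((a - v)⁻¹ * (x - v))‖ ≤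
      W * (K * (m * P)) := by
    intro a ha
    rw [norm_mul, Finset.prod_mul_distrib, norm_mul, norm_prod, norm_prod]
    have h1 : ∏ v ∈ I.erase a, ‖(a - v)⁻¹‖ ≤ K := by
      simp only [norm_inv]
      rw [Finset.prod_inv_distrib]
      have h0 : 0 < ∏ v ∈ I.erase a, ‖a - v‖ := by
        apply Finset.prod_pos
        intro v hv
        exact norm_pos_iff.mpr (sub_ne_zero.mpr (Finset.ne_of_mem_erase hv).symm)
      rw [inv_eq_one_div, div_le_iff₀ h0]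
      exact hμ a ha
    have h2 : ∏ v ∈ I.erase a, ‖x - v‖ ≤ m * P := by
      have h3 : ∏ v ∈ I.erase a, ‖x - v‖ ≤
          ∏ v ∈ I.erase a, ‖((r ^ 2 + 1 / m : ℝ) : ℂ) * x - v‖ := by
        apply Finset.prod_le_prod (fun _ _ => norm_nonneg _)
        intro v hv
        exact near_le x v r _ hx hr (hIr v (Finset.mem_of_mem_erase hv))
          (le_add_of_nonneg_right (by positivity))
      have h4 := far_le x a r (1 / m) hx hr (hIr a ha) (by positivity)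
      have h5 : P = ‖((r ^ 2 + 1 / m : ℝ) : ℂ) * x - a‖ *
          ∏ v ∈ I.erase a, ‖((r ^ 2 + 1 / m : ℝ) : ℂ) * x - v‖ := by
        rw [hP, Finset.mul_prod_erase I (fun v => ‖((r ^ 2 + 1 / m : ℝ) : ℂ) * x - v‖) ha]
      have h6 : 0 ≤ ∏ v ∈ I.erase a, ‖((r ^ 2 + 1 / m : ℝ) : ℂ) * x - v‖ :=
        Finset.prod_nonneg fun _ _ => norm_nonneg _
      rw [div_le_iff₀ hm0] at h4
      rw [h5]
      nlinarith [mul_le_mul_of_nonneg_right h4 h6]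
    have h7 : 0 ≤ ∏ v ∈ I.erase a, ‖x - v‖ := Finset.prod_nonneg fun _ _ => norm_nonneg _
    have h8 : 0 ≤ ∏ v ∈ I.erase a, ‖(a - v)⁻¹‖ := Finset.prod_nonneg fun _ _ => norm_nonneg _
    exact mul_le_mul (hfW a ha) (mul_le_mul h1 h2 h7 hK) (mul_nonneg h8 h7) hW
  rw [interp I f hf x]
  refine le_trans (norm_sum_le _ _) (le_trans (Finset.sum_le_card_nsmul _ _ _ hterm) ?_)
  rw [nsmul_eq_mul]
  have h9 : (I.card : ℝ) ≤ m := by exact_mod_cast hI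
  have h10 : 0 ≤ W * (K * (m * P)) := by positivity
  calc (I.card : ℝ) * (W * (K * (m * P))) ≤ m * (W * (K * (m * P))) := by gcongr
    _ = W * (K * (m : ℝ) ^ 2 * P) := by ring

theorem disc_any (hD : SDisc) [DecidableEq ℂ] (J : Finset ℂ) (r : ℝ) (m : ℕ) (hr : 1 ≤ r)
    (hJ : ∀ u ∈ J, ‖u‖ ≤ r) (hm : J.card ≤ m) :
    ∏ u ∈ J, ∏ v ∈ J.erase u, ‖u - v‖ ≤ (m : ℝ) ^ (2 * J.card) * r ^ (J.card ^ 2) := by
  have h := hD.2 J r hr hJ
  have h9 : (J.card : ℝ) ≤ m := by exact_mod_cast hm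
  have hr0 : 0 ≤ r := by linarith
  refine le_trans (le_of_eq ?_) (le_trans h (by gcongr))
  refine Finset.prod_congr rfl fun u _ => Finset.prod_congr ?_ fun _ _ => rfl
  ext v
  simp only [Finset.mem_erase]

theorem strans : SFek → SDisc → STrans := by
  intro hF hD A m r hA hirr hdeg hm hr hroots
  obtain ⟨Δ, hΔ, hE⟩ := hD.1 A hA hirr
  obtain ⟨hcard, hprod⟩ := hE ℂ
  let _ : DecidableEq ℂ := fun a b => Classical.propDecidable (a = b)
  set T : Finset ℂ := (A.aroots ℂ).toFinset with hT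
  have hTm : T.card = m := hcard.trans hdeg
  have hroot : ∀ a ∈ T, aeval a A = 0 := by
    intro a ha
    rw [hT, Multiset.mem_toFinset, mem_aroots] at ha
    exact ha.2
  have hTr : ∀ a ∈ T, ‖a‖ ≤ r := fun a ha => hroots a (hroot a ha)
  obtain ⟨I, hIT, hIc, hI⟩ := hF ℂ T (m / 2 + 1) (by omega)
  have hone : 1 ≤ ∏ u ∈ T, ∏ v ∈ T.erase u, ‖u - v‖ := by
    have h1 : ∏ u ∈ T, ∏ v ∈ T.erase u, ‖u - v‖ = ‖(Δ : ℂ)‖ := by
      rw [← hprod, norm_prod]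
      exact Finset.prod_congr rfl fun u _ => (norm_prod _ _).symm
    rw [h1, Complex.norm_intCast]
    exact_mod_cast Int.one_le_abs hΔ
  have hr0 : 0 ≤ r := by linarith
  have hm1 : (1 : ℝ) ≤ m := by exact_mod_cast (by omega : 1 ≤ m)
  have hq : (T \ I).card = m - (m / 2 + 1) := by
    rw [Finset.card_sdiff_of_subset hIT, hTm, hIc]
  have hμ : ∀ a ∈ I, 1 ≤ 2 * (m : ℝ) ^ 3 * r ^ (2 * m) * ∏ v ∈ I.erase a, ‖a - v‖ := by
    intro a ha
    have hμ0 : 0 ≤ ∏ v ∈ I.erase a, ‖a - v‖ := Finset.prod_nonneg fun _ _ => norm_nonneg _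
    apply mu_lower m (m - (m / 2 + 1)) r _ hm (by omega) hr hμ0
    have h1 := hI a ha
    have h2 := disc_any hD I r m hr (fun u hu => hTr u (hIT hu)) (by omega)
    have h3 := disc_any hD (T \ I) r m hr (fun u hu => hTr u (Finset.mem_sdiff.mp hu).1)
      (by omega)
    have h4 : ∏ u ∈ T \ I, ‖u - a‖ ≤ (2 * r) ^ (m - (m / 2 + 1)) := by
      rw [← hq, ← Finset.prod_const]
      apply Finset.prod_le_prod (fun _ _ => norm_nonneg _)
      intro u hu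
      have h5 := norm_sub_le u a
      have h6 := hTr u (Finset.mem_sdiff.mp hu).1
      have h7 := hTr a (hIT ha)
      linarith
    rw [hq] at h3
    rw [hIc] at h2
    rw [hTm] at h1
    obtain ⟨q, hqq⟩ : ∃ q, q = m - (m / 2 + 1) := ⟨_, rfl⟩
    obtain ⟨N, hN⟩ : ∃ N, N = m / 2 + 1 := ⟨_, rfl⟩
    rw [← hqq] at h1 h3 h4 ⊢
    rw [← hN] at h2
    have hNq : m = N + q := by omega
    have h8 : 0 ≤ ∏ u ∈ T \ I, ‖u - a‖ := Finset.prod_nonneg fun _ _ => norm_nonneg _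
    have h9 : 0 ≤ ∏ u ∈ T \ I, ∏ v ∈ (T \ I).erase u, ‖u - v‖ :=
      Finset.prod_nonneg fun _ _ => Finset.prod_nonneg fun _ _ => norm_nonneg _
    have h10 : r ^ (N ^ 2) * r ^ (q ^ 2) ≤ r ^ (m ^ 2) := by
      rw [← pow_add]
      apply pow_le_pow_right₀ hr
      rw [hNq]
      nlinarith [Nat.zero_le (N * q)]
    have h11 : (m : ℝ) ^ (2 * N) * (m : ℝ) ^ (2 * q) = (m : ℝ) ^ (2 * m) := by
      rw [← pow_add]
      congr 1
      omega
    calc (1 : ℝ) ≤ _ := hone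
      _ ≤ _ := h1
      _ ≤ ((m : ℝ) ^ (2 * N) * r ^ (N ^ 2)) * ((m : ℝ) ^ (2 * q) * r ^ (q ^ 2)) *
          ((2 * r) ^ q) ^ 2 * (∏ v ∈ I.erase a, ‖a - v‖) ^ (2 * q) := by gcongr
      _ = (m : ℝ) ^ (2 * m) * (r ^ (N ^ 2) * r ^ (q ^ 2)) *
          (2 * r * ∏ v ∈ I.erase a, ‖a - v‖) ^ (2 * q) := by
        rw [← h11, mul_pow (2 * r), ← pow_mul, mul_comm q 2]
        ring
      _ ≤ _ := by gcongr
  refine ⟨I, hIc, fun a ha => hTr a (hIT ha), ?_⟩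
  intro f W hf hW x hx
  have hW0 : 0 ≤ W := by
    obtain ⟨a, ha⟩ : I.Nonempty := Finset.card_pos.mp (by omega)
    exact le_trans (norm_nonneg _) (hW a (hroot a (hIT ha)))
  have h := transfer I m r (2 * (m : ℝ) ^ 3 * r ^ (2 * m)) W f x (by omega) (by omega) hr
    (by positivity) hW0 (fun a ha => hTr a (hIT ha)) hμ (by omega)
    (fun a ha => hW a (hroot a (hIT ha))) hx
  refine le_trans h (le_of_eq ?_)
  ring

end Pool.Agent.MP_670f9a_nt.H90
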